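import Pool.Agent.H71.CO.Targets

/-!
# Two variables, counting quantifiers and a linear order: row REP of the board `cqo_modules`
-/

set_option autoImplicit false

open Set

namespace Pool.Agent.H89.CO

open Pool.Agent.H71.CQ (Formula Holds Iso IsIso)
open Pool.Agent.H71.CO

/-- transport of a structure with the same local structure -/
theorem sib_comap {L : Type} {s : ℕ → ℕ → L} {V : Type} {E : V → V → L} (hE : Sib s E)
    (h : ℕ ≃ V) : Sib s fun u v : ℕ => E (h u) (h v) := by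
  refine ⟨fun u v => hE.rl _ _, fun u v a b he => hE.sw _ _ a b he,
    fun u v a b he => hE.dg _ _ a b he, fun u v a he => h.injective (hE.eq _ _ a he), ?_⟩
  intro u a he l
  rw [← hE.cnt (h u) a he l]
  have h1 : {w | E (h u) w = l} = h '' {v | E (h u) (h v) = l} := by
    ext w
    constructor
    · intro hw
      refine ⟨h.symm w, ?_, h.apply_symm_apply w⟩
      show E (h u) (h (h.symm w)) = l
      rw [h.apply_symm_apply]
      exact hw
    · rintro ⟨v, hv, rfl⟩
      exact hv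
  rw [h1, h.injective.encard_image]

/-- transport of a linear order -/
theorem lin_comap {V : Type} {lt : V → V → Prop} (hl : Lin lt) (h : ℕ ≃ V)
    {lt' : ℕ → ℕ → Prop} (hlt : ∀ u v, lt' u v ↔ lt (h u) (h v)) : Lin lt' := by
  refine ⟨fun a ha => hl.irr _ ((hlt a a).1 ha), fun a b c hab hbc => ?_, fun a b hab => ?_⟩
  · exact (hlt a c).2 (hl.tra _ _ _ ((hlt a b).1 hab) ((hlt b c).1 hbc))
  · rcases hl.tot (h a) (h b) fun he => hab (h.injective he) with h1 | h1
    · exact Or.inl ((hlt a b).2 h1)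
    · exact Or.inr ((hlt b a).2 h1)

/-- Row REP. -/
theorem pf_REP (hTYP : T_TYP) (hTRU : T_TRU) (hSIB : T_SIB) (hORS : T_ORS) (hAMB : T_AMB)
    (hRHB : T_RHB) : T_REP := by
  intro C _ _ φ P x hx a0 hinf S
  obtain ⟨L, hL, s, hst, hs, hxs⟩ := hTYP C x
  set lt : ℕ → ℕ → Prop := fun a b => x a b ∈ P with hlt
  have hSO : SO s lt := by
    refine ⟨hst, hx.2, fun a b a' b' he => ?_⟩
    rw [hlt]
    show x a b ∈ P ↔ x a' b' ∈ P
    rw [hxs a b a' b' he]
  have hcls : ¬ (Cls s a0).Finite := by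
    have h1 : Cls s a0 = {b | ∀ ψ : Formula C, Tru x ψ b b ↔ Tru x ψ a0 a0} := by
      ext b
      exact hs b b a0 a0
    rw [h1]
    exact hinf
  obtain ⟨I, hI, li, hli, hends, i, j, hij⟩ := hORS S
  obtain ⟨E, hE, hEl⟩ := hSIB L s lt hSO I li hli ⟨i⟩
  obtain ⟨hUl, hrho⟩ := hAMB L s lt hSO I li hli hends
  have hIinf : Infinite I := Set.infinite_univ_iff.1 ((hends i).1.mono (Set.subset_univ _))
  have hUinf : Infinite (UV s I) := by
    refine Infinite.of_injective (fun k : I => (Sum.inr (⟨a0, hcls⟩, k) : UV s I)) ?_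
    intro k k' hkk
    have h1 := Sum.inr_injective hkk
    exact congrArg Prod.snd h1
  obtain ⟨h⟩ := nonempty_equiv_of_countable (α := ℕ) (β := UV s I)
  have he := sib_comap hE h
  choose fa fb hfab using he.rl
  set x' : ℕ → ℕ → C := fun u v => x (fa u v) (fb u v) with hx'
  have hx'p : ∀ u v a b, E (h u) (h v) = s a b → x' u v = x a b := by
    intro u v a b hab
    rw [hx']
    exact hxs _ _ _ _ ((hfab u v).symm.trans hab)
  have hltU : ∀ u v, x' u v ∈ P ↔ Ul s lt li (h u) (h v) := by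
    intro u v
    rw [hx'p u v _ _ (hfab u v)]
    exact (hEl (h u) (h v) _ _ (hfab u v)).symm
  refine ⟨x', ⟨fun u v => ?_, ?_⟩, h.symm (Sum.inr (⟨a0, hcls⟩, i)),
    h.symm (Sum.inr (⟨a0, hcls⟩, j)), ?_⟩
  · exact (hTRU C x L s hst _ he x' hx'p φ u v _ _ (hfab u v)).2 (hx.1 _ _)
  · exact lin_comap hUl h hltU
  · have h1 := (hRHB C ∅ MeasurableSet.empty).2 ℕ (UV s I) (fun a b => x' a b ∈ P)
      (Ul s lt li) h (fun u v => (hltU u v).symm) (h.symm (Sum.inr (⟨a0, hcls⟩, i)))
      (h.symm (Sum.inr (⟨a0, hcls⟩, j)))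
    rw [h.apply_symm_apply, h.apply_symm_apply] at h1
    rw [← h1, hrho ⟨a0, hcls⟩ i j, hij]

end Pool.Agent.H89.CO
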